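import Mathlib
import Pool.Agent.Y228.HX.G2

/-!
# The motivic monodromy conjecture for the `χ_y`-genus: global zeta functions of nondegenerate forms
and of nondegenerate convenient polynomials

Let `k` be a field, `k ⊂ ℂ`, and let `f = ∑_j c_j x ^ (v j) ∈ k[x_1, …, x_n]`, `f(0) = 0`, `c_j ≠ 0`, be
nondegenerate for the faces of its Newton polyhedron, in any number of variables, with an arbitrary
Newton polyhedron, and either homogeneous (the singularities are then arbitrary, in particular not
isolated) or convenient. The global motivic zeta function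
`Z_f^mot(T) = ∑_{d ≥ 0} [X_{d,1}] 𝕃 ^ (-n d) T ^ d ∈ 𝓜_K[[T]]` of the problem is specialised by a ring
homomorphism `φ : 𝓜_K → ℚ(u)` which is the `χ_y`-genus on the nondegenerate hypersurfaces in
tori (`ChiY φ`), that is `φ(𝕃) = u` and `φ` satisfies the formula of Danilov and
Khovanskii. The homomorphism given by the Hodge-Deligne polynomial, `[X] ↦ E(X; u, 1)`, which is
`∑_{p,q} (-1) ^ (p + q) h^{p,q}(X) u ^ p` for smooth projective `X`, has this property, by theorems of
Deligne and of Danilov and Khovanskii (1986). These theorems are not formalised here; the result is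
for all `φ` with this property.

The power series `φ(Z_f^mot(T))` lies in the subring of `ℚ(u)[[T]]` generated over the field `ℚ(u)` by
`T` and finitely many `1 / (1 - u ^ a T ^ b)` with `a < 0 < b` such that `a / b - i` is a root of the local
Bernstein-Sato polynomial `b_{f,0}`, hence of `b_f`, for an integer `i`; by the theorem of Malgrange and
Kashiwara `exp(2 π i a / b)` is an eigenvalue of the monodromy of `f` at points of `{f = 0}` arbitrarily
near to `0`. This is the statement of Q1 after the specialisation `φ`.

Method: the local theorem (`ChiYGenus` of MP_b91a16_ag) and, for forms, the relation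
`∑_d [X_{d,1,0}] 𝕃 ^ (-n d) T ^ d = 𝕃 ^ (-n) T ^ e Z_f^mot(T)`, `e` the degree, and division by `T` in the
ring of the rational functions; for convenient polynomials the jets with origin different from `0`
give only the pole `-1`.
-/

set_option autoImplicit false

namespace Pool.Agent.Results.MP_432c1b_ag.ChiYGenusGlobal

open MvPolynomial Pool.Agent.W428.MOT
open Pool.Agent.W375.MG (zetaW)
open Pool.Agent.TH216.MF (ratR)
open Pool.Agent.W425.ND (spa)
open Pool.Agent.Y229.CF (NondegC)
open Pool.Agent.Y228.GN (NondegP)
open Pool.Agent.Y228.HX (ChiY uX Conv)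

/-- **The motivic monodromy conjecture for the global motivic zeta function, specialised to the
`χ_y`-genus, for all nondegenerate forms and all nondegenerate convenient polynomials
`f = ∑_j c_j x ^ (v j)` over `k ⊂ ℂ`, in any number of variables.**

`spa v c` is the polynomial `f = ∑_j c_j x ^ (v j)`. `NondegC v c` says that for every `w ∈ ℝ ^ n` with
positive coordinates the face polynomial of `f` (the sum of the terms `c_j x ^ (v j)` on which
`⟨w, v j⟩` is minimal) and its derivatives `x_i ∂_i` have no common zero in `(ℂ \ 0) ^ n`; `NondegP v c`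
says this for every `w` with nonnegative coordinates. `Conv v` (convenient) says that some power of
each variable is one of the `x ^ (v j)`.

`IsLocalBFunction f b` says that `b(s) f ^ s = P(s) f ^ (s + 1)` for a differential operator `P(s)`
with (formal, in particular convergent or polynomial) power series at the origin as coefficients;
`b_{f,0}` and `b_f` are such polynomials. `zetaW f Set.univ` is the motivic zeta function
`∑_{d ≥ 0} [X_{d,1}] 𝕃 ^ (-n d) T ^ d` of the problem over the field `K`, `MK K = K_0(Var_K)[𝕃⁻¹]`,
`PowerSeries.map φ` applies `φ` to the coefficients, and `ratR uX S` is the subring of `ℚ(u)[[T]]`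
generated over `ℚ(u)` by `T` and the series `1 / (1 - u ^ a T ^ b)`, `(a, b) ∈ S`. The finite set `S` does
not depend on `K` and `φ`.

`ChiY φ` says that `φ(𝕃) = u` and that for all `n`, all families of distinct exponents `v j ∈ ℕ ^ n`,
`j ∈ κ`, and all coefficients `c_j ∈ K \ 0` such that `g = ∑_{j ∈ κ} c_j x ^ (v j)` is nondegenerate for all
the faces of its Newton polytope `P` (`NonL v κ c`: for every `w ∈ ℤ ^ n` the sum of the terms on which
`w` is minimal and its `x_i ∂_i` have no common zero in the torus over the algebraic closure of `K`)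
the class of the hypersurface `g = 0` in the torus of dimension `n` (`ZT v κ c`) has the value
`((u - 1) ^ n + (u - 1) ^ (n + 1) E(u)) / u`, where `E ∈ ℚ(u)` is the rational function with the power
series expansion `∑_k #(k P ∩ ℤ ^ n) u ^ k` at `0` (`Expd E`; `Dil v κ k` is `k P ∩ ℤ ^ n`). -/
theorem result (k : Type) [Field k] [Algebra k ℂ] {n r : ℕ} (hr : 0 < r)
    (v : Fin r → Fin n → ℕ) (c : Fin r → k) (hv : Function.Injective v) (hv0 : ∀ j, v j ≠ 0)
    (hc : ∀ j, c j ≠ 0) (hnd : NondegC v (fun j => algebraMap k ℂ (c j)))
    (hG : (∃ d : ℕ, ∀ j, ∑ i, v j i = d) ∨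
      (NondegP v (fun j => algebraMap k ℂ (c j)) ∧ Conv v)) :
    ∃ S : Finset (ℤ × ℤ),
      (∀ p ∈ S, p.1 < 0 ∧ 0 < p.2 ∧ ∀ b : Polynomial ℂ,
        Pool.Agent.H628R4.TP.IsLocalBFunction (spa v (fun j => algebraMap k ℂ (c j))) b →
          ∃ i : ℤ, b.eval ((p.1 : ℂ) / p.2 - i) = 0) ∧
      ∀ (K : Type) [Field K] [Algebra k K] (φ : MK K →+* RatFunc ℚ), ChiY φ →
        PowerSeries.map φ (zetaW (spa v (fun j => algebraMap k K (c j))) Set.univ) ∈
          ratR uX S :=
  Pool.Agent.Y228.HX.hodgeG k hr v c hv hv0 hc hnd hG

end Pool.Agent.Results.MP_432c1b_ag.ChiYGenusGlobal
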