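import Mathlib
import Pool.Agent.TH216.MF.HDM

/-!
# The motivic monodromy conjecture in the strong form for generic coefficients: simplices and
# B1-facets

Let `f = ∑_j c_j x ^ (v j) + h` be a polynomial in `n` variables over a field `k ⊂ ℂ`, where `h` is an
ARBITRARY polynomial over a subfield `F ⊂ k`, whose exponents are in the Newton polyhedron
`conv {v j} + ℝ_{≥ 0} ^ n`, and the coefficients `c_j ∈ k` are generic: `g(c) ≠ 0` for a certain nonzero
polynomial `g` with coefficients in `F` (`k = F` is allowed). So only the coefficients at the vertices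
of the Newton polyhedron (and as many others as one wants) have to be generic. For every candidate
pole `- |a| / N_a ≠ -1` either one of its facets contains a simplex which is not B1, or at every
`v j` the facets of the candidate pole through `v j` are simplices or `B1`-facets in a common
direction. Then the (global) motivic zeta function of `f` satisfies the motivic monodromy conjecture
in the strong form: the pairs `(a, b)` of the denominators `1 - 𝕃 ^ a T ^ b` have `a / b` a root of the
Bernstein-Sato polynomial of `f`.
-/

set_option autoImplicit false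

namespace Pool.Agent.Results.MP_432c1b_ag.GenericSimplicialOrB1

open MvPolynomial Pool.Agent.W428.MOT Pool.Agent.W375.MG Pool.Agent.W425.MM Pool.Agent.TH216.HD

/-- **The motivic monodromy conjecture (Bernstein-Sato form) for the global motivic zeta functions
of the polynomials `f = ∑_j c_j x ^ (v j) + h` with generic coefficients `c_j`; simplices, and
`B1`-facets in a direction depending on the vertex.**

`poly v c h` is the polynomial `f = ∑_j c_j x ^ (v j) + h`. `InPoly v w` says that `w` is in the Newton
polyhedron `conv {v j} + ℝ_{≥ 0} ^ n`.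

`Hyp False v h` says that for every ray `a` of the normal fan of the Newton polyhedron (`IsRay v a`)
with `N_a := ordA v a = min_j ⟨a, v j⟩ > 0` one of the following holds:
* `|a| = N_a` (the candidate pole is `-1`);
* `|a| / N_a = |a'| / N_{a'}` for some `a' ∈ ℕ ^ n` with `N_{a'} > 0` and `NonB1 v False a'`: there is a
  set `J` of `#{i | a' i ≠ 0}` elements with `⟨a', v j⟩ = N_{a'}` for `j ∈ J` such that the vectors
  `(v j i)_{a' i ≠ 0}`, `j ∈ J`, are linearly independent and such that no variable `x_i` with
  `a' i ≠ 0` occurs in exactly one of the monomials `x ^ (v j)`, `j ∈ J`, and there with exponent `1`;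
* `LocS v h σ` for `σ = lev v a = |a| / N_a`: for every `v j1` there is a variable `x_i` such that each of
  the rays `a'` with `N_{a'} > 0`, `|a'| / N_{a'} = σ` and `⟨a', v j1⟩ = N_{a'}` (the facets through
  `v j1`) satisfies one of
  - its facet is a simplex (`Simp v h a'`): the vectors `(v j i)_{a' i ≠ 0}`, for the `j` with
    `⟨a', v j⟩ = N_{a'}`, are linearly independent, and the exponents `w` of `h` with
    `⟨a', w⟩ = N_{a'}` are in the convex hull of the `v j` (automatic if all `a' i ≠ 0`);
  - it is B1 in the direction `i` (`B1Dir v h i a'`): `a' i ≠ 0`, and among the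
    monomials of the face of `a'` (the `x ^ (v j)` and the monomials of `h` of minimal `a'`-weight
    `N_{a'}`) exactly one is divisible by `x_i`; this one is some `x ^ (v j0)` with `v j0 i = 1`
    (it may also occur in `h`).

`W = Set.univ` gives the motivic zeta function of `f`.
`IsBFunction f b` says that `b(s) f ^ s = P(s) f ^ (s + 1)` for a differential operator `P(s)` in the
Weyl algebra, polynomial in `s`; the Bernstein-Sato polynomial `b_f` is one of these polynomials
`b`. -/
theorem result (F : Type) [Field F] [Algebra F ℂ] {n r : ℕ} (hr : 0 < r) (v : Fin r → Fin n → ℕ)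
    (hv : Function.Injective v) (hv0 : ∀ j, v j ≠ 0)
    (h : MvPolynomial (Fin n) F) (hh : ∀ w ∈ h.support, InPoly v w) (hL : Hyp False v h) :
    ∃ g : MvPolynomial (Fin r) F, g ≠ 0 ∧
      ∀ (k : Type) [Field k] [Algebra F k] [Algebra k ℂ] [IsScalarTower F k ℂ] (c : Fin r → k),
      aeval c g ≠ 0 →
      ∃ S : Finset (ℤ × ℤ),
        (∀ p ∈ S, p.1 < 0 ∧ 0 < p.2 ∧ ∀ b : Polynomial ℂ,
          Pool.Agent.H628R4.TP.IsBFunction (poly v (fun j => algebraMap k ℂ (c j)) h) b →
            b.eval ((p.1 : ℂ) / p.2) = 0) ∧
        ∀ W : Set (Pt k (Fin n)), Constr W → zetaW (poly v c h) W ∈ ratRing k S := by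
  obtain ⟨g, hg, hgz⟩ := genM (F := F) hr v hv hv0 h hh hL
  refine ⟨g, hg, fun k _ _ _ _ c hc => ?_⟩
  obtain ⟨S, hS, hz, -⟩ := hgz k c hc
  refine ⟨S, hS, fun W hW => ?_⟩
  rw [zetaW_eq]
  have h1 := hz k W {1} hW good_one
  have h2 : MvPolynomial.map (algebraMap k k) (poly v c h) = poly v c h := by
    rw [Algebra.algebraMap_self, MvPolynomial.map_id]
  rwa [h2] at h1

end Pool.Agent.Results.MP_432c1b_ag.GenericSimplicialOrB1
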