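import Mathlib
import Pool.Agent.Y228.GN.Main
import Pool.Agent.Y228.ND4.H1
import Pool.Agent.Y229.CF.N4B

/-!
# The motivic monodromy conjecture for nondegenerate polynomials in four variables

Let `k ⊂ ℂ` be a field and let `f = ∑_j c_j x ^ (v j) ∈ k[x_1, x_2, x_3, x_4]`, `f(0) = 0`, `c_j ≠ 0`.
There is NO condition on the Newton polyhedron `Γ = conv {v j} + ℝ_{≥ 0} ^ 4`, the coefficients need
not be generic, and the singularities need not be isolated.

* If `f` is nondegenerate with respect to the COMPACT faces of `Γ` (the usual nondegeneracy of
Kouchnirenko and Varchenko), it satisfies the motivic monodromy conjecture at the origin, and if `f` is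
moreover homogeneous (the cone over a surface in `ℙ ^ 3` which may have arbitrary nondegenerate
singularities on the coordinate planes), it satisfies the global motivic monodromy conjecture.
* If `f` is nondegenerate with respect to all the faces of `Γ`, compact or not, it satisfies the global
motivic monodromy conjecture under a condition (`GlobV`) on the terms of `f` which are not vertices of
`Γ`. It is empty for convenient `f`, and if all the exponents of `f` are vertices of `Γ`; in general
it says, for every coordinate subspace `{x_i = 0, i ∈ J}` different from the origin on which `f`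
vanishes, that no exponent which is not a vertex has the same coordinates in `J` as a vertex with a
coordinate `1` in `J`.

The motivic zeta function of the jets with origin `0`, and the one of all jets, respectively, lie in
the ring generated by `T` and finitely many `1 / (1 - 𝕃 ^ a T ^ b)` with `a < 0 < b` such that
`a / b - i` is a root of the local Bernstein-Sato polynomial `b_{f,0}` for an integer `i`; by the
theorem of Malgrange and Kashiwara `exp(2 π i a / b)` is an eigenvalue of the monodromy of `f` at
points of `{f = 0}` near to `0`.

Method. For the arcs with origin `0`: the functional equation of the Bernstein-Sato polynomial of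
`f` is deformed to very general coefficients. It gives an algebraic relation, which is restricted to
the vertices and turned into a multiplicative identity for the series
`∑_u q ^ (-|u|) F (⟨u, v_1⟩ - t, …, ⟨u, v_k⟩ - t)`, `F` a difference polynomial applied to the Heaviside
function of the orthant, for every integer `q ≥ 2`. On the other side the classes of the zero sets of
the face polynomials in the tori satisfy linear relations (from `B1`-faces, where a variable has
exponent `1` in one monomial and does not occur in the others, and from `B2`-faces, where the
projection to two variables has the exponents of a linear polynomial). A facet of the Newton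
polyhedron in `ℝ ^ 4` either gives a root of the relation (by a simplex, a circuit or a point of its own
which is not of type `B`), or its vertices are of type `B`; for the level sets of the function
`|a| / N_a` all of whose facets are of type `B` the multiplicative identity and the linear relations
show that the factors `1 - q ^ (-a) T ^ N` with `a / N = σ` cancel identically for every `q ≥ 2`, hence
`q` can be replaced by `𝕃`. For the arcs whose origin is in the torus of a coordinate subspace
`{x_i = 0, i ∈ J}` on which `f` vanishes only the relations of `B1`-type in the directions in `J` are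
used; the exponents which are not vertices are added to a set `τ` of vertices if their
coordinates in `J` are convex combinations of those of `τ`, which is compatible with the relations by
`GlobV`. If `f` is homogeneous of degree `d`, the jets with origin `0` are `t` times arbitrary jets, so
the zeta function of the jets with origin `0` is `𝕃 ^ (-4) T ^ d` times the global one.
-/

set_option autoImplicit false

namespace Pool.Agent.Results.MP_432c1b_ag.NondegenerateFourGlobal

open MvPolynomial Pool.Agent.W428.MOT Pool.Agent.W375.MG
open Pool.Agent.W425.ND (spa)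
open Pool.Agent.Y229.CF (NondegC)
open Pool.Agent.Y228.GN (NondegP GlobV nd4G)

theorem hom_sum {K : Type} [Field K] {r d : ℕ} (v : Fin r → Fin 4 → ℕ) (c : Fin r → K)
    (hd : ∀ j, ∑ i, v j i = d) : (spa v c).IsHomogeneous d := by
  unfold spa
  refine IsHomogeneous.sum _ _ _ fun j _ => ?_
  have h1 : (∏ i, X i ^ v j i : MvPolynomial (Fin 4) K).IsHomogeneous (∑ i, v j i) :=
    IsHomogeneous.prod _ _ _ fun i _ => by
      have h2 := (isHomogeneous_X K i).pow (v j i)
      rwa [one_mul] at h2
  rw [hd] at h1
  have h2 := (isHomogeneous_C (Fin 4) (c j)).mul h1
  rwa [zero_add] at h2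

/-- **The motivic monodromy conjecture for the nondegenerate polynomials `f = ∑_j c_j x ^ (v j)` in
four variables over `k ⊂ ℂ` with `f(0) = 0`: at the origin, and at all points if `f` is homogeneous or
nondegenerate for all the faces with the condition `GlobV` on the terms which are not vertices.**

`spa v c` is the polynomial `∑_j c_j x ^ (v j)`. `NondegC v c` says that for every `w ∈ ℝ ^ 4` with
positive coordinates the face polynomial of `f` (the sum of the terms `c_j x ^ (v j)` on which
`⟨w, v j⟩` is minimal) and its derivatives `x_i ∂_i` have no common zero in `(ℂ \ 0) ^ 4`; `NondegP v c`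
says this for every `w` with nonnegative coordinates.

`IsLocalBFunction f b` says that `b(s) f ^ s = P(s) f ^ (s + 1)` for a differential operator `P(s)`,
polynomial in `s`, with (formal, in particular convergent or polynomial) power series at the origin as
coefficients; the Bernstein-Sato polynomials `b_{f,0}` and `b_f` are among these polynomials `b`.
`zetaW f {0}` is the series `∑_{d ≥ 0} [X_{d,1,0}] 𝕃 ^ (-4 d) T ^ d`, where `X_{d,1,0}` is the set of the
jets in the set `X_{d,1}` of the problem with origin `0`, and `zetaW f Set.univ` is the motivic zeta
function `∑_{d ≥ 0} [X_{d,1}] 𝕃 ^ (-4 d) T ^ d` of the problem. The finite set `S` is the same for all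
the fields `K` which contain `k`.

`GlobV v` says the following for every coordinate subspace `{x_i = 0, i ∈ J}`, except the origin, on
which `f` vanishes: if a vertex `v j` of the Newton polyhedron has a coordinate `1` in `J`, then no
`v l` which is not a vertex has the same coordinates in `J` as `v j`. -/
theorem result (k : Type) [Field k] [Algebra k ℂ] {r : ℕ} (hr : 0 < r)
    (v : Fin r → Fin 4 → ℕ) (c : Fin r → k) (hv : Function.Injective v) (hv0 : ∀ j, v j ≠ 0)
    (hc : ∀ j, c j ≠ 0) (hnd : NondegC v (fun j => algebraMap k ℂ (c j))) :
    ∃ S : Finset (ℤ × ℤ),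
      (∀ p ∈ S, p.1 < 0 ∧ 0 < p.2 ∧ ∀ b : Polynomial ℂ,
        Pool.Agent.H628R4.TP.IsLocalBFunction (spa v (fun j => algebraMap k ℂ (c j))) b →
          ∃ i : ℤ, b.eval ((p.1 : ℂ) / p.2 - i) = 0) ∧
      ∀ (K : Type) [Field K] [Algebra k K],
        zetaW (spa v (fun j => algebraMap k K (c j))) {0} ∈ ratRing K S ∧
        (((∃ d : ℕ, ∀ j, ∑ i, v j i = d) ∨
            (NondegP v (fun j => algebraMap k ℂ (c j)) ∧ GlobV v)) →
          zetaW (spa v (fun j => algebraMap k K (c j))) Set.univ ∈ ratRing K S) := by
  classical
  obtain ⟨S, hS, hz⟩ := Pool.Agent.Y229.CF.nd_four' hr v hv hv0 c hc hnd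
  have hS' : ∀ p ∈ S, p.1 < 0 ∧ 0 < p.2 ∧ ∀ b : Polynomial ℂ,
      Pool.Agent.H628R4.TP.IsLocalBFunction (spa v (fun j => algebraMap k ℂ (c j))) b →
        ∃ i : ℤ, b.eval ((p.1 : ℂ) / p.2 - i) = 0 := by
    intro p hp
    refine ⟨(hS p hp).1, (hS p hp).2.1, fun b hb => ?_⟩
    obtain ⟨h1, h2⟩ := Pool.Agent.Y229.CF.of_local' v (by omega) _ hv hv0 hnd b hb
    exact (hS p hp).2.2 b h1 h2
  have hz' : ∀ (K : Type) [Field K] [Algebra k K],
      zetaW (spa v (fun j => algebraMap k K (c j))) {0} ∈ ratRing K S ∧
      ((∃ d : ℕ, ∀ j, ∑ i, v j i = d) →
        zetaW (spa v (fun j => algebraMap k K (c j))) Set.univ ∈ ratRing K S) := by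
    intro K _ _
    have hkc : CharZero k := RingHom.charZero (algebraMap k ℂ)
    have hK : CharZero K := charZero_of_injective_algebraMap (algebraMap k K).injective
    have hW : Constr ({0} : Set (Pt K (Fin 4))) := by
      have h1 := Pool.Agent.W425.MM.constr_pt (K := K) (0 : Fin 4 → K)
      have e : ({fun i => algebraMap K (AlgebraicClosure K) ((0 : Fin 4 → K) i)} :
          Set (Pt K (Fin 4))) = {0} := by
        congr 1
        funext i
        simp
      rwa [e] at h1
    have h0 : zetaG (spa v (fun j => algebraMap k K (c j))) {0} {1} ∈ ratRing K S :=
      hz K {0} {1} hW good_one (fun z hz i => by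
        rw [Set.mem_singleton_iff.1 hz]
        rfl)
    rw [zetaW_eq, zetaW_eq]
    refine ⟨h0, fun ⟨d, hvd⟩ => ?_⟩
    have hd : 0 < d := by
      have h1 := hvd ⟨0, hr⟩
      by_contra h2
      apply hv0 ⟨0, hr⟩
      funext i
      have h3 : v ⟨0, hr⟩ i ≤ ∑ i, v ⟨0, hr⟩ i :=
        Finset.single_le_sum (f := fun i => v ⟨0, hr⟩ i) (fun _ _ => Nat.zero_le _)
          (Finset.mem_univ i)
      change v ⟨0, hr⟩ i = 0
      omega
    exact Pool.Agent.Y228.ND4.global_of_local hd (hom_sum v _ hvd) good_one hW S
      (fun p hp => (hS p hp).2.1) h0
  by_cases hG : NondegP v (fun j => algebraMap k ℂ (c j)) ∧ GlobV v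
  · obtain ⟨S1, hS1, hz1, -⟩ := nd4G hr v hv hv0 c hc hG.1 True (fun _ => hG.2)
    refine ⟨S ∪ S1, fun p hp => ?_, fun K _ _ => ⟨?_, fun _ => ?_⟩⟩
    · rcases Finset.mem_union.1 hp with hp | hp
      · exact hS' p hp
      · exact hS1 p hp
    · exact Pool.Agent.W375.MG.ratRing_mono
        (by rw [Finset.coe_union]; exact Set.subset_union_left) (hz' K).1
    · rw [zetaW_eq]
      exact Pool.Agent.W375.MG.ratRing_mono
        (by rw [Finset.coe_union]; exact Set.subset_union_right)
        (hz1 K Set.univ {1} Constr.univ good_one (Or.inr trivial))
  · refine ⟨S, hS', fun K _ _ => ⟨(hz' K).1, fun h => ?_⟩⟩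
    rcases h with h | h
    · exact (hz' K).2 h
    · exact absurd h hG

end Pool.Agent.Results.MP_432c1b_ag.NondegenerateFourGlobal
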